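import Mathlib

/-!
# The maximum number of main vertices in a star set

Let `X` be an `l`-star set of a connected graph `G` with `n` vertices.  If the complement of `X` has
at least four vertices, then `X` has at most `n - 4` main vertices.  Otherwise `X` has at most one
main vertex.  To see this, take for every `u ∈ X` the vector `x` of the eigenspace whose restriction
to `X` is the indicator of `u`; the vertex `u` is main if and only if its entries have a nonzero sum.
For two main vertices `u`, `v` the entries of the two vectors outside `X` satisfy a small system of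
polynomial equations.  With at most three vertices outside `X` it has no solution, except that `l = 1`
and there are no edges outside `X`; but then the component of `u` is a single edge.

The value `n - 4` is attained by the path with five vertices with further copies of its middle
vertex, for `l = 0`.
-/

set_option autoImplicit false
set_option linter.unusedVariables false
set_option linter.unusedSimpArgs false
set_option maxHeartbeats 4000000

namespace Pool.Agent.Results.MP_bb681f_co.StarMain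

open scoped Classical

/-- The eigenspace of the adjacency matrix of `G` for the number `l`. -/
def eigenspace {V : Type*} [Fintype V] (G : SimpleGraph V) (l : ℝ) : Submodule ℝ (V → ℝ) where
  carrier := {x | ∀ v, ∑ u, (if G.Adj v u then x u else 0) = l * x v}
  add_mem' := by
    intro x y hx hy v
    have hx' : ∑ u, (if G.Adj v u then x u else 0) = l * x v := hx v
    have hy' : ∑ u, (if G.Adj v u then y u else 0) = l * y v := hy v
    show ∑ u, (if G.Adj v u then x u + y u else 0) = l * (x v + y v)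
    rw [mul_add, ← hx', ← hy', ← Finset.sum_add_distrib]
    apply Finset.sum_congr rfl; intro u _; split_ifs <;> simp
  zero_mem' := by intro v; simp
  smul_mem' := by
    intro c x hx v
    have hx' : ∑ u, (if G.Adj v u then x u else 0) = l * x v := hx v
    show ∑ u, (if G.Adj v u then c * x u else 0) = l * (c * x v)
    rw [mul_left_comm, ← hx', Finset.mul_sum]
    apply Finset.sum_congr rfl; intro u _; split_ifs <;> simp

/-- `l` is a main eigenvalue of `G`: some vector in its eigenspace is not orthogonal to the all-ones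
vector. -/
def IsMain {V : Type*} [Fintype V] (G : SimpleGraph V) (l : ℝ) : Prop :=
  ∃ x ∈ eigenspace G l, ∑ v, x v ≠ 0

/-- `X` is an `l`-star set of `G`: its size is the multiplicity of `l`, and `l` is not an eigenvalue
of `G - X`. -/
def IsStarSet {V : Type*} [Fintype V] (G : SimpleGraph V) (l : ℝ) (X : Finset V) : Prop :=
  X.card = Module.finrank ℝ (eigenspace G l) ∧
    eigenspace (G.induce ((Xᶜ : Finset V) : Set V)) l = ⊥

/-- The `l`-main vertices of `X`: those `v ∈ X` for which `l` is a main eigenvalue of the subgraph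
induced by `v` and the complement of `X`. -/
noncomputable def mainSet {V : Type*} [Fintype V] (G : SimpleGraph V) (l : ℝ) (X : Finset V) :
    Finset V :=
  X.filter fun v => IsMain (G.induce ((Xᶜ ∪ {v} : Finset V) : Set V)) l

section
variable {n : ℕ} (G : SimpleGraph (Fin n)) (l : ℝ)

theorem mem_eigenspace {V : Type*} [Fintype V] (G : SimpleGraph V) (l : ℝ) (x : V → ℝ) :
    x ∈ eigenspace G l ↔ ∀ v, ∑ u, (if G.Adj v u then x u else 0) = l * x v := Iff.rfl

/-- the equations of an eigenvector of the subgraph induced by `S` -/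
def LocEq {V : Type*} [Fintype V] (G : SimpleGraph V) (l : ℝ) (S : Finset V) (x : V → ℝ) : Prop :=
  ∀ i ∈ S, ∑ j ∈ S, (if G.Adj i j then x j else 0) = l * x i

theorem locEq_iff {V : Type*} [Fintype V] (G : SimpleGraph V) (l : ℝ) (S : Finset V) (x : V → ℝ) :
    LocEq G l S x ↔ (fun v : ((S : Finset V) : Set V) => x v) ∈
      eigenspace (G.induce ((S : Finset V) : Set V)) l := by
  rw [mem_eigenspace]
  have h : ∀ i : V, ∑ j ∈ S, (if G.Adj i j then x j else 0) =
      ∑ u : ((S : Finset V) : Set V), (if G.Adj i u then x u else 0) := by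
    intro i
    exact (Finset.sum_coe_sort S fun j => if G.Adj i j then x j else 0).symm
  constructor
  · intro hx v
    have := hx v.1 v.2
    rw [h] at this
    exact this
  · intro hx i hi
    rw [h]
    exact hx ⟨i, hi⟩

theorem bot_iff {V : Type*} [Fintype V] (G : SimpleGraph V) (l : ℝ) (S : Finset V) :
    eigenspace (G.induce ((S : Finset V) : Set V)) l = ⊥ ↔
      ∀ x : V → ℝ, LocEq G l S x → ∀ i ∈ S, x i = 0 := by
  constructor
  · intro h x hx i hi
    rw [locEq_iff, h, Submodule.mem_bot] at hx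
    exact congrFun hx ⟨i, hi⟩
  · intro h
    rw [Submodule.eq_bot_iff]
    intro x hx
    let y : V → ℝ := fun v => if hv : v ∈ S then x ⟨v, hv⟩ else 0
    have hy : (fun v : ((S : Finset V) : Set V) => y v) = x := by
      ext v
      show (if hv : v.1 ∈ S then x ⟨v.1, hv⟩ else 0) = x v
      rw [dif_pos (show v.1 ∈ S from v.2)]
    have h2 : LocEq G l S y := by rw [locEq_iff, hy]; exact hx
    ext v
    rw [← hy]
    exact h y h2 v.1 v.2

theorem isMain_iff {V : Type*} [Fintype V] (G : SimpleGraph V) (l : ℝ) (S : Finset V) :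
    IsMain (G.induce ((S : Finset V) : Set V)) l ↔
      ∃ x : V → ℝ, LocEq G l S x ∧ ∑ i ∈ S, x i ≠ 0 := by
  constructor
  · rintro ⟨x, hx, hs⟩
    let y : V → ℝ := fun v => if hv : v ∈ S then x ⟨v, hv⟩ else 0
    have hy : (fun v : ((S : Finset V) : Set V) => y v) = x := by
      ext v
      show (if hv : v.1 ∈ S then x ⟨v.1, hv⟩ else 0) = x v
      rw [dif_pos (show v.1 ∈ S from v.2)]
    refine ⟨y, by rw [locEq_iff, hy]; exact hx, ?_⟩
    have : ∑ i ∈ S, y i = ∑ v : ((S : Finset V) : Set V), y v := (Finset.sum_coe_sort S y).symm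
    rw [this]
    rw [← hy] at hs
    exact hs
  · rintro ⟨x, hx, hs⟩
    refine ⟨fun v => x v, (locEq_iff G l S x).1 hx, ?_⟩
    have : ∑ i ∈ S, x i = ∑ v : ((S : Finset V) : Set V), x v := (Finset.sum_coe_sort S x).symm
    rw [← this]; exact hs

/-- the vectors of a star set -/
def IsDual {V : Type*} [Fintype V] (G : SimpleGraph V) (l : ℝ) (X : Finset V) (u : V)
    (x : V → ℝ) : Prop :=
  x ∈ eigenspace G l ∧ x u = 1 ∧ ∀ w ∈ X, w ≠ u → x w = 0

/-- the restriction to `X` -/
def restr {V : Type*} [Fintype V] (G : SimpleGraph V) (l : ℝ) (X : Finset V) :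
    eigenspace G l →ₗ[ℝ] (X → ℝ) where
  toFun x := fun i => x.1 i
  map_add' x y := rfl
  map_smul' c x := rfl

theorem restr_inj {V : Type*} [Fintype V] (G : SimpleGraph V) (l : ℝ) (X : Finset V)
    (hX : ∀ x : V → ℝ, LocEq G l Xᶜ x → ∀ i ∈ Xᶜ, x i = 0) :
    Function.Injective (restr G l X) := by
  rw [← LinearMap.ker_eq_bot, LinearMap.ker_eq_bot']
  rintro ⟨x, hx⟩ h0
  have h1 : ∀ i ∈ X, x i = 0 := fun i hi => congrFun h0 ⟨i, hi⟩
  have h2 : LocEq G l Xᶜ x := by
    intro i hi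
    rw [← hx i]
    apply Finset.sum_subset (Finset.subset_univ _)
    intro j _ hj
    rw [Finset.mem_compl, not_not] at hj
    rw [h1 j hj]; simp
  ext i
  show x i = 0
  by_cases hi : i ∈ X
  · exact h1 i hi
  · exact hX x h2 i (Finset.mem_compl.2 hi)

theorem exists_dual {V : Type*} [Fintype V] (G : SimpleGraph V) (l : ℝ) (X : Finset V)
    (h : IsStarSet G l X) (u : V) (hu : u ∈ X) : ∃ x, IsDual G l X u x := by
  have hinj := restr_inj G l X ((bot_iff G l Xᶜ).1 h.2)
  have hsur : Function.Surjective (restr G l X) := by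
    rw [← LinearMap.injective_iff_surjective_of_finrank_eq_finrank]
    · exact hinj
    · rw [← h.1]; simp
  obtain ⟨x, hx⟩ := hsur fun i => if (i : V) = u then 1 else 0
  refine ⟨x.1, x.2, ?_, ?_⟩
  · have := congrFun hx ⟨u, hu⟩
    simpa [restr] using this
  · intro w hw hwu
    have := congrFun hx ⟨w, hw⟩
    simpa [restr, hwu] using this

theorem isStarSet_of {V : Type*} [Fintype V] (G : SimpleGraph V) (l : ℝ) (X : Finset V)
    (hX : ∀ x : V → ℝ, LocEq G l Xᶜ x → ∀ i ∈ Xᶜ, x i = 0)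
    (hd : ∀ u ∈ X, ∃ x, IsDual G l X u x) : IsStarSet G l X := by
  refine ⟨?_, (bot_iff G l Xᶜ).2 hX⟩
  have hinj := restr_inj G l X hX
  choose! d hd using hd
  have hsur : Function.Surjective (restr G l X) := by
    intro f
    refine ⟨∑ i : X, f i • ⟨d i, (hd i.1 i.2).1⟩, ?_⟩
    rw [map_sum]
    ext j
    rw [Finset.sum_apply, Finset.sum_eq_single j]
    · rw [map_smul]
      show f j * d j j = f j
      rw [(hd j.1 j.2).2.1, mul_one]
    · intro i _ hij
      rw [map_smul]
      show f i * d i j = 0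
      rw [(hd i.1 i.2).2.2 j.1 j.2 fun h => hij (Subtype.ext h.symm), mul_zero]
    · intro h; exact absurd (Finset.mem_univ _) h
  have := LinearEquiv.finrank_eq (LinearEquiv.ofBijective (restr G l X) ⟨hinj, hsur⟩)
  rw [this]; simp

/-- adjacency as a number -/
noncomputable def am {V : Type*} (G : SimpleGraph V) (i j : V) : ℝ := if G.Adj i j then 1 else 0

theorem am_or {V : Type*} (G : SimpleGraph V) (i j : V) : am G i j = 0 ∨ am G i j = 1 := by
  unfold am; split_ifs
  · right; rfl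
  · left; rfl

theorem am_symm {V : Type*} (G : SimpleGraph V) (i j : V) : am G i j = am G j i := by
  unfold am; rw [G.adj_comm]

theorem am_self {V : Type*} (G : SimpleGraph V) (i : V) : am G i i = 0 := by
  unfold am; rw [if_neg (G.loopless.irrefl i)]

theorem am_zero {V : Type*} {G : SimpleGraph V} {i j : V} (h : am G i j = 0) : ¬ G.Adj i j := by
  intro h'; unfold am at h; rw [if_pos h'] at h; exact one_ne_zero h

theorem ite_am {V : Type*} (G : SimpleGraph V) (i j : V) (r : ℝ) :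
    (if G.Adj i j then r else 0) = am G i j * r := by
  unfold am; split_ifs <;> simp

theorem dual_eq {V : Type*} [Fintype V] (G : SimpleGraph V) (l : ℝ) (X : Finset V) (u : V)
    (hu : u ∈ X) (x : V → ℝ) (hx : IsDual G l X u x) (w : V) :
    am G w u + ∑ j ∈ Xᶜ, am G w j * x j = l * x w := by
  rw [← hx.1 w]
  simp only [ite_am]
  rw [← Finset.sum_add_sum_compl X]
  congr 1
  rw [Finset.sum_eq_single u]
  · rw [hx.2.1, mul_one]
  · intro j hj hju
    rw [hx.2.2 j hj hju, mul_zero]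
  · intro h; exact absurd hu h

theorem locEq_am {V : Type*} [Fintype V] (G : SimpleGraph V) (l : ℝ) (S : Finset V) (x : V → ℝ) :
    LocEq G l S x ↔ ∀ i ∈ S, ∑ j ∈ S, am G i j * x j = l * x i := by
  unfold LocEq; simp only [ite_am]

theorem main_sum {V : Type*} [Fintype V] (G : SimpleGraph V) (l : ℝ) (X : Finset V)
    (hX : ∀ x : V → ℝ, LocEq G l Xᶜ x → ∀ i ∈ Xᶜ, x i = 0) (u : V) (hu : u ∈ X)
    (x : V → ℝ) (hx : IsDual G l X u x)
    (hm : IsMain (G.induce ((Xᶜ ∪ {u} : Finset V) : Set V)) l) : 1 + ∑ j ∈ Xᶜ, x j ≠ 0 := by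
  rw [isMain_iff] at hm
  obtain ⟨z, hz, hs⟩ := hm
  rw [locEq_am] at hz
  have hdis : Disjoint (Xᶜ) {u} := by
    rw [Finset.disjoint_singleton_right, Finset.mem_compl, not_not]; exact hu
  have hz' : ∀ i ∈ Xᶜ, ∑ j ∈ Xᶜ, am G i j * z j + am G i u * z u = l * z i := by
    intro i hi
    have := hz i (Finset.mem_union_left _ hi)
    rw [Finset.sum_union hdis, Finset.sum_singleton] at this
    exact this
  have h1 : ∀ i ∈ Xᶜ, z i - z u * x i = 0 := by
    apply hX (fun i => z i - z u * x i)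
    rw [locEq_am]
    intro i hi
    have e1 := hz' i hi
    have e2 := dual_eq G l X u hu x hx i
    have e3 : ∑ j ∈ Xᶜ, am G i j * (z j - z u * x j) =
        ∑ j ∈ Xᶜ, am G i j * z j - z u * ∑ j ∈ Xᶜ, am G i j * x j := by
      rw [Finset.mul_sum, ← Finset.sum_sub_distrib]
      apply Finset.sum_congr rfl; intro j _; ring
    rw [e3]
    linear_combination e1 - z u * e2
  rw [Finset.sum_union hdis, Finset.sum_singleton] at hs
  intro h0
  apply hs
  have h2 : ∑ j ∈ Xᶜ, z j = z u * ∑ j ∈ Xᶜ, x j := by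
    rw [Finset.mul_sum]
    apply Finset.sum_congr rfl
    intro j hj
    linarith [h1 j hj]
  rw [h2]
  linear_combination z u * h0

end

/-! ### The equations for at most three vertices outside `X` -/

theorem core_000 (l y1 y2 y3 z1 z2 z3 b1 b2 b3 c1 c2 c3 a : ℝ) (ha : a = 0 ∨ a = 1)
    (kb1 : b1 = 0 ∨ b1 = 1) (kb2 : b2 = 0 ∨ b2 = 1) (kb3 : b3 = 0 ∨ b3 = 1)
    (kc1 : c1 = 0 ∨ c1 = 1) (kc2 : c2 = 0 ∨ c2 = 1) (kc3 : c3 = 0 ∨ c3 = 1)
    (e1 : l * y1 = b1)
    (e2 : l * y2 = b2)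
    (e3 : l * y3 = b3)
    (f1 : l * z1 = c1)
    (f2 : l * z2 = c2)
    (f3 : l * z3 = c3)
    (g1 : b1 * y1 + b2 * y2 + b3 * y3 = l) (g2 : c1 * z1 + c2 * z2 + c3 * z3 = l)
    (g3 : c1 * y1 + c2 * y2 + c3 * y3 = -a) (g4 : b1 * z1 + b2 * z2 + b3 * z3 = -a)
    (m1 : 1 + (y1 + y2 + y3) ≠ 0) (m2 : 1 + (z1 + z2 + z3) ≠ 0)
    (hb : b1 + b2 + b3 ≠ 0) (hc : c1 + c2 + c3 ≠ 0)
    (D : l ^ 3 ≠ 0) : l = 1 := by
  rcases kb1 with rfl | rfl <;> rcases kb2 with rfl | rfl <;> rcases kb3 with rfl | rfl <;>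
  rcases kc1 with rfl | rfl <;> rcases kc2 with rfl | rfl <;> rcases kc3 with rfl | rfl <;>
  rcases ha with rfl | rfl <;>
  simp only [zero_mul, one_mul, add_zero, zero_add, neg_zero, ne_eq, not_true_eq_false] at * <;>
  grind

theorem core_100 (l y1 y2 y3 z1 z2 z3 b1 b2 b3 c1 c2 c3 a : ℝ) (ha : a = 0 ∨ a = 1)
    (kb1 : b1 = 0 ∨ b1 = 1) (kb2 : b2 = 0 ∨ b2 = 1) (kb3 : b3 = 0 ∨ b3 = 1)
    (kc1 : c1 = 0 ∨ c1 = 1) (kc2 : c2 = 0 ∨ c2 = 1) (kc3 : c3 = 0 ∨ c3 = 1)
    (e1 : l * y1 = y2 + b1)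
    (e2 : l * y2 = y1 + b2)
    (e3 : l * y3 = b3)
    (f1 : l * z1 = z2 + c1)
    (f2 : l * z2 = z1 + c2)
    (f3 : l * z3 = c3)
    (g1 : b1 * y1 + b2 * y2 + b3 * y3 = l) (g2 : c1 * z1 + c2 * z2 + c3 * z3 = l)
    (g3 : c1 * y1 + c2 * y2 + c3 * y3 = -a) (g4 : b1 * z1 + b2 * z2 + b3 * z3 = -a)
    (m1 : 1 + (y1 + y2 + y3) ≠ 0) (m2 : 1 + (z1 + z2 + z3) ≠ 0)
    (hb : b1 + b2 + b3 ≠ 0) (hc : c1 + c2 + c3 ≠ 0)
    (D : l ^ 3 - 1 * l ≠ 0) : False := by
  rcases kb1 with rfl | rfl <;> rcases kb2 with rfl | rfl <;> rcases kb3 with rfl | rfl <;>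
  rcases kc1 with rfl | rfl <;> rcases kc2 with rfl | rfl <;> rcases kc3 with rfl | rfl <;>
  rcases ha with rfl | rfl <;>
  simp only [zero_mul, one_mul, add_zero, zero_add, neg_zero, ne_eq, not_true_eq_false] at * <;>
  grind

theorem core_110 (l y1 y2 y3 z1 z2 z3 b1 b2 b3 c1 c2 c3 a : ℝ) (ha : a = 0 ∨ a = 1)
    (kb1 : b1 = 0 ∨ b1 = 1) (kb2 : b2 = 0 ∨ b2 = 1) (kb3 : b3 = 0 ∨ b3 = 1)
    (kc1 : c1 = 0 ∨ c1 = 1) (kc2 : c2 = 0 ∨ c2 = 1) (kc3 : c3 = 0 ∨ c3 = 1)
    (e1 : l * y1 = y2 + y3 + b1)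
    (e2 : l * y2 = y1 + b2)
    (e3 : l * y3 = y1 + b3)
    (f1 : l * z1 = z2 + z3 + c1)
    (f2 : l * z2 = z1 + c2)
    (f3 : l * z3 = z1 + c3)
    (g1 : b1 * y1 + b2 * y2 + b3 * y3 = l) (g2 : c1 * z1 + c2 * z2 + c3 * z3 = l)
    (g3 : c1 * y1 + c2 * y2 + c3 * y3 = -a) (g4 : b1 * z1 + b2 * z2 + b3 * z3 = -a)
    (m1 : 1 + (y1 + y2 + y3) ≠ 0) (m2 : 1 + (z1 + z2 + z3) ≠ 0)
    (hb : b1 + b2 + b3 ≠ 0) (hc : c1 + c2 + c3 ≠ 0)
    (D : l ^ 3 - 2 * l ≠ 0) : False := by
  rcases kb1 with rfl | rfl <;> rcases kb2 with rfl | rfl <;> rcases kb3 with rfl | rfl <;>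
  rcases kc1 with rfl | rfl <;> rcases kc2 with rfl | rfl <;> rcases kc3 with rfl | rfl <;>
  rcases ha with rfl | rfl <;>
  simp only [zero_mul, one_mul, add_zero, zero_add, neg_zero, ne_eq, not_true_eq_false] at * <;>
  grind

theorem core_111 (l y1 y2 y3 z1 z2 z3 b1 b2 b3 c1 c2 c3 a : ℝ) (ha : a = 0 ∨ a = 1)
    (kb1 : b1 = 0 ∨ b1 = 1) (kb2 : b2 = 0 ∨ b2 = 1) (kb3 : b3 = 0 ∨ b3 = 1)
    (kc1 : c1 = 0 ∨ c1 = 1) (kc2 : c2 = 0 ∨ c2 = 1) (kc3 : c3 = 0 ∨ c3 = 1)
    (e1 : l * y1 = y2 + y3 + b1)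
    (e2 : l * y2 = y1 + y3 + b2)
    (e3 : l * y3 = y1 + y2 + b3)
    (f1 : l * z1 = z2 + z3 + c1)
    (f2 : l * z2 = z1 + z3 + c2)
    (f3 : l * z3 = z1 + z2 + c3)
    (g1 : b1 * y1 + b2 * y2 + b3 * y3 = l) (g2 : c1 * z1 + c2 * z2 + c3 * z3 = l)
    (g3 : c1 * y1 + c2 * y2 + c3 * y3 = -a) (g4 : b1 * z1 + b2 * z2 + b3 * z3 = -a)
    (m1 : 1 + (y1 + y2 + y3) ≠ 0) (m2 : 1 + (z1 + z2 + z3) ≠ 0)
    (hb : b1 + b2 + b3 ≠ 0) (hc : c1 + c2 + c3 ≠ 0)
    (D : l ^ 3 - 3 * l - 2 ≠ 0) : False := by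
  rcases kb1 with rfl | rfl <;> rcases kb2 with rfl | rfl <;> rcases kb3 with rfl | rfl <;>
  rcases kc1 with rfl | rfl <;> rcases kc2 with rfl | rfl <;> rcases kc3 with rfl | rfl <;>
  rcases ha with rfl | rfl <;>
  simp only [zero_mul, one_mul, add_zero, zero_add, neg_zero, ne_eq, not_true_eq_false] at * <;>
  grind

theorem core2_0 (l y1 y2 z1 z2 b1 b2 c1 c2 a : ℝ) (ha : a = 0 ∨ a = 1)
    (kb1 : b1 = 0 ∨ b1 = 1) (kb2 : b2 = 0 ∨ b2 = 1)
    (kc1 : c1 = 0 ∨ c1 = 1) (kc2 : c2 = 0 ∨ c2 = 1)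
    (e1 : l * y1 = b1) (e2 : l * y2 = b2)
    (f1 : l * z1 = c1) (f2 : l * z2 = c2)
    (g1 : b1 * y1 + b2 * y2 = l) (g2 : c1 * z1 + c2 * z2 = l)
    (g3 : c1 * y1 + c2 * y2 = -a) (g4 : b1 * z1 + b2 * z2 = -a)
    (m1 : 1 + (y1 + y2) ≠ 0) (m2 : 1 + (z1 + z2) ≠ 0)
    (hb : b1 + b2 ≠ 0) (hc : c1 + c2 ≠ 0)
    (D : l ^ 2 ≠ 0) : l = 1 := by
  rcases kb1 with rfl | rfl <;> rcases kb2 with rfl | rfl <;>
  rcases kc1 with rfl | rfl <;> rcases kc2 with rfl | rfl <;>
  rcases ha with rfl | rfl <;>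
  simp only [zero_mul, one_mul, add_zero, zero_add, neg_zero, ne_eq, not_true_eq_false] at * <;>
  grind

theorem core2_1 (l y1 y2 z1 z2 b1 b2 c1 c2 a : ℝ) (ha : a = 0 ∨ a = 1)
    (kb1 : b1 = 0 ∨ b1 = 1) (kb2 : b2 = 0 ∨ b2 = 1)
    (kc1 : c1 = 0 ∨ c1 = 1) (kc2 : c2 = 0 ∨ c2 = 1)
    (e1 : l * y1 = y2 + b1) (e2 : l * y2 = y1 + b2)
    (f1 : l * z1 = z2 + c1) (f2 : l * z2 = z1 + c2)
    (g1 : b1 * y1 + b2 * y2 = l) (g2 : c1 * z1 + c2 * z2 = l)
    (g3 : c1 * y1 + c2 * y2 = -a) (g4 : b1 * z1 + b2 * z2 = -a)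
    (m1 : 1 + (y1 + y2) ≠ 0) (m2 : 1 + (z1 + z2) ≠ 0)
    (hb : b1 + b2 ≠ 0) (hc : c1 + c2 ≠ 0)
    (D : l ^ 2 - 1 ≠ 0) : False := by
  rcases kb1 with rfl | rfl <;> rcases kb2 with rfl | rfl <;>
  rcases kc1 with rfl | rfl <;> rcases kc2 with rfl | rfl <;>
  rcases ha with rfl | rfl <;>
  simp only [zero_mul, one_mul, add_zero, zero_add, neg_zero, ne_eq, not_true_eq_false] at * <;>
  grind

theorem core1 (l y1 z1 b1 c1 a : ℝ) (ha : a = 0 ∨ a = 1)
    (kb1 : b1 = 0 ∨ b1 = 1) (kc1 : c1 = 0 ∨ c1 = 1)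
    (e1 : l * y1 = b1) (f1 : l * z1 = c1) (g1 : b1 * y1 = l) (g2 : c1 * z1 = l)
    (g3 : c1 * y1 = -a) (g4 : b1 * z1 = -a) (m1 : 1 + y1 ≠ 0) (m2 : 1 + z1 ≠ 0)
    (hb : b1 ≠ 0) (hc : c1 ≠ 0) : False := by
  rcases kb1 with rfl | rfl <;> rcases kc1 with rfl | rfl <;> rcases ha with rfl | rfl <;>
  simp only [zero_mul, one_mul, add_zero, zero_add, neg_zero, ne_eq, not_true_eq_false] at * <;>
  grind

theorem core3 (l y1 y2 y3 z1 z2 z3 h12 h13 h23 b1 b2 b3 c1 c2 c3 a : ℝ) (ha : a = 0 ∨ a = 1)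
    (k12 : h12 = 0 ∨ h12 = 1) (k13 : h13 = 0 ∨ h13 = 1) (k23 : h23 = 0 ∨ h23 = 1)
    (kb1 : b1 = 0 ∨ b1 = 1) (kb2 : b2 = 0 ∨ b2 = 1) (kb3 : b3 = 0 ∨ b3 = 1)
    (kc1 : c1 = 0 ∨ c1 = 1) (kc2 : c2 = 0 ∨ c2 = 1) (kc3 : c3 = 0 ∨ c3 = 1)
    (e1 : l * y1 = h12 * y2 + h13 * y3 + b1) (e2 : l * y2 = h12 * y1 + h23 * y3 + b2)
    (e3 : l * y3 = h13 * y1 + h23 * y2 + b3)
    (f1 : l * z1 = h12 * z2 + h13 * z3 + c1) (f2 : l * z2 = h12 * z1 + h23 * z3 + c2)
    (f3 : l * z3 = h13 * z1 + h23 * z2 + c3)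
    (g1 : b1 * y1 + b2 * y2 + b3 * y3 = l) (g2 : c1 * z1 + c2 * z2 + c3 * z3 = l)
    (g3 : c1 * y1 + c2 * y2 + c3 * y3 = -a) (g4 : b1 * z1 + b2 * z2 + b3 * z3 = -a)
    (m1 : 1 + (y1 + y2 + y3) ≠ 0) (m2 : 1 + (z1 + z2 + z3) ≠ 0)
    (hb : b1 + b2 + b3 ≠ 0) (hc : c1 + c2 + c3 ≠ 0)
    (D : l ^ 3 - (h12 ^ 2 + h13 ^ 2 + h23 ^ 2) * l - 2 * h12 * h13 * h23 ≠ 0) :
    l = 1 ∧ h12 = 0 ∧ h13 = 0 ∧ h23 = 0 := by
  rcases k12 with rfl | rfl <;> rcases k13 with rfl | rfl <;> rcases k23 with rfl | rfl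
  · refine ⟨core_000 l y1 y2 y3 z1 z2 z3 b1 b2 b3 c1 c2 c3 a ha kb1 kb2 kb3 kc1 kc2 kc3
      (by linarith) (by linarith) (by linarith) (by linarith) (by linarith) (by linarith)
      g1 g2 g3 g4 m1 m2 hb hc (fun h => D (by linarith)), rfl, rfl, rfl⟩
  · exact (core_100 l y2 y3 y1 z2 z3 z1 b2 b3 b1 c2 c3 c1 a ha kb2 kb3 kb1 kc2 kc3 kc1
      (by linarith) (by linarith) (by linarith) (by linarith) (by linarith) (by linarith)
      (by linarith) (by linarith) (by linarith) (by linarith) (fun h => m1 (by linarith))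
      (fun h => m2 (by linarith)) (fun h => hb (by linarith)) (fun h => hc (by linarith))
      (fun h => D (by linarith))).elim
  · exact (core_100 l y1 y3 y2 z1 z3 z2 b1 b3 b2 c1 c3 c2 a ha kb1 kb3 kb2 kc1 kc3 kc2
      (by linarith) (by linarith) (by linarith) (by linarith) (by linarith) (by linarith)
      (by linarith) (by linarith) (by linarith) (by linarith) (fun h => m1 (by linarith))
      (fun h => m2 (by linarith)) (fun h => hb (by linarith)) (fun h => hc (by linarith))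
      (fun h => D (by linarith))).elim
  · exact (core_110 l y3 y1 y2 z3 z1 z2 b3 b1 b2 c3 c1 c2 a ha kb3 kb1 kb2 kc3 kc1 kc2
      (by linarith) (by linarith) (by linarith) (by linarith) (by linarith) (by linarith)
      (by linarith) (by linarith) (by linarith) (by linarith) (fun h => m1 (by linarith))
      (fun h => m2 (by linarith)) (fun h => hb (by linarith)) (fun h => hc (by linarith))
      (fun h => D (by linarith))).elim
  · exact (core_100 l y1 y2 y3 z1 z2 z3 b1 b2 b3 c1 c2 c3 a ha kb1 kb2 kb3 kc1 kc2 kc3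
      (by linarith) (by linarith) (by linarith) (by linarith) (by linarith) (by linarith)
      (by linarith) (by linarith) (by linarith) (by linarith) (fun h => m1 (by linarith))
      (fun h => m2 (by linarith)) (fun h => hb (by linarith)) (fun h => hc (by linarith))
      (fun h => D (by linarith))).elim
  · exact (core_110 l y2 y1 y3 z2 z1 z3 b2 b1 b3 c2 c1 c3 a ha kb2 kb1 kb3 kc2 kc1 kc3
      (by linarith) (by linarith) (by linarith) (by linarith) (by linarith) (by linarith)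
      (by linarith) (by linarith) (by linarith) (by linarith) (fun h => m1 (by linarith))
      (fun h => m2 (by linarith)) (fun h => hb (by linarith)) (fun h => hc (by linarith))
      (fun h => D (by linarith))).elim
  · exact (core_110 l y1 y2 y3 z1 z2 z3 b1 b2 b3 c1 c2 c3 a ha kb1 kb2 kb3 kc1 kc2 kc3
      (by linarith) (by linarith) (by linarith) (by linarith) (by linarith) (by linarith)
      (by linarith) (by linarith) (by linarith) (by linarith) (fun h => m1 (by linarith))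
      (fun h => m2 (by linarith)) (fun h => hb (by linarith)) (fun h => hc (by linarith))
      (fun h => D (by linarith))).elim
  · exact (core_111 l y1 y2 y3 z1 z2 z3 b1 b2 b3 c1 c2 c3 a ha kb1 kb2 kb3 kc1 kc2 kc3
      (by linarith) (by linarith) (by linarith) (by linarith) (by linarith) (by linarith)
      (by linarith) (by linarith) (by linarith) (by linarith) (fun h => m1 (by linarith))
      (fun h => m2 (by linarith)) (fun h => hb (by linarith)) (fun h => hc (by linarith))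
      (fun h => D (by linarith))).elim

theorem det3 {V : Type*} [Fintype V] (G : SimpleGraph V) (l : ℝ) (X : Finset V)
    (hX : ∀ x : V → ℝ, LocEq G l Xᶜ x → ∀ i ∈ Xᶜ, x i = 0) (p q r : V) (hpq : p ≠ q)
    (hpr : p ≠ r) (hqr : q ≠ r) (hT : Xᶜ = {p, q, r}) :
    l ^ 3 - (am G p q ^ 2 + am G p r ^ 2 + am G q r ^ 2) * l -
      2 * am G p q * am G p r * am G q r ≠ 0 := by
  intro h0
  set a := am G p q with ha
  set b := am G p r with hb
  set c := am G q r with hc
  have hdet : (!![l, -a, -b; -a, l, -c; -b, -c, l] : Matrix (Fin 3) (Fin 3) ℝ).det = 0 := by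
    rw [Matrix.det_fin_three]
    show l * l * l - l * (-c) * (-c) - (-a) * (-a) * l + (-a) * (-c) * (-b) +
      (-b) * (-a) * (-c) - (-b) * l * (-b) = 0
    linear_combination h0
  obtain ⟨v, hv0, hv⟩ := Matrix.exists_mulVec_eq_zero_iff.2 hdet
  have e1 : l * v 0 - a * v 1 - b * v 2 = 0 := by
    have := congrFun hv 0
    simp [Matrix.mulVec, dotProduct, Fin.sum_univ_three] at this
    linarith
  have e2 : -a * v 0 + l * v 1 - c * v 2 = 0 := by
    have := congrFun hv 1
    simp [Matrix.mulVec, dotProduct, Fin.sum_univ_three] at this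
    linarith
  have e3 : -b * v 0 - c * v 1 + l * v 2 = 0 := by
    have := congrFun hv 2
    simp [Matrix.mulVec, dotProduct, Fin.sum_univ_three] at this
    linarith
  let x : V → ℝ := fun i => if i = p then v 0 else if i = q then v 1 else if i = r then v 2 else 0
  have xp : x p = v 0 := if_pos rfl
  have xq : x q = v 1 := by
    show (if q = p then v 0 else if q = q then v 1 else _) = _
    rw [if_neg hpq.symm, if_pos rfl]
  have xr : x r = v 2 := by
    show (if r = p then v 0 else if r = q then v 1 else if r = r then v 2 else 0) = _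
    rw [if_neg hpr.symm, if_neg hqr.symm, if_pos rfl]
  have hsum : ∀ f : V → ℝ, ∑ j ∈ Xᶜ, f j = f p + f q + f r := by
    intro f
    rw [hT, Finset.sum_insert (by simp [hpq, hpr]), Finset.sum_insert (by simp [hqr]),
      Finset.sum_singleton, add_assoc]
  have hloc : LocEq G l Xᶜ x := by
    rw [locEq_am]
    intro i hi
    rw [hsum, xp, xq, xr]
    rw [hT] at hi
    simp only [Finset.mem_insert, Finset.mem_singleton] at hi
    rcases hi with rfl | rfl | rfl
    · rw [am_self, xp, ← ha, ← hb]; linarith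
    · rw [am_self, xq, am_symm G i p, ← ha, ← hc]; linarith
    · rw [am_self, xr, am_symm G i p, am_symm G i q, ← hb, ← hc]; linarith
  have h1 := hX x hloc
  apply hv0
  have hm : ∀ i, i = p ∨ i = q ∨ i = r → i ∈ Xᶜ := by
    intro i hi; rw [hT]; simp only [Finset.mem_insert, Finset.mem_singleton]; exact hi
  ext i
  fin_cases i
  · exact xp.symm.trans (h1 p (hm p (Or.inl rfl)))
  · exact xq.symm.trans (h1 q (hm q (Or.inr (Or.inl rfl))))
  · exact xr.symm.trans (h1 r (hm r (Or.inr (Or.inr rfl))))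

theorem det2 {V : Type*} [Fintype V] (G : SimpleGraph V) (l : ℝ) (X : Finset V)
    (hX : ∀ x : V → ℝ, LocEq G l Xᶜ x → ∀ i ∈ Xᶜ, x i = 0) (p q : V) (hpq : p ≠ q)
    (hT : Xᶜ = {p, q}) : l ^ 2 - am G p q ^ 2 ≠ 0 := by
  intro h0
  set a := am G p q with ha
  have hdet : (!![l, -a; -a, l] : Matrix (Fin 2) (Fin 2) ℝ).det = 0 := by
    rw [Matrix.det_fin_two_of]
    linear_combination h0
  obtain ⟨v, hv0, hv⟩ := Matrix.exists_mulVec_eq_zero_iff.2 hdet
  have e1 : l * v 0 - a * v 1 = 0 := by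
    have := congrFun hv 0
    simp [Matrix.mulVec, dotProduct, Fin.sum_univ_two] at this
    linarith
  have e2 : -a * v 0 + l * v 1 = 0 := by
    have := congrFun hv 1
    simp [Matrix.mulVec, dotProduct, Fin.sum_univ_two] at this
    linarith
  let x : V → ℝ := fun i => if i = p then v 0 else if i = q then v 1 else 0
  have xp : x p = v 0 := if_pos rfl
  have xq : x q = v 1 := by
    show (if q = p then v 0 else if q = q then v 1 else _) = _
    rw [if_neg hpq.symm, if_pos rfl]
  have hsum : ∀ f : V → ℝ, ∑ j ∈ Xᶜ, f j = f p + f q := by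
    intro f
    rw [hT, Finset.sum_insert (by simp [hpq]), Finset.sum_singleton]
  have hloc : LocEq G l Xᶜ x := by
    rw [locEq_am]
    intro i hi
    rw [hsum, xp, xq]
    rw [hT] at hi
    simp only [Finset.mem_insert, Finset.mem_singleton] at hi
    rcases hi with rfl | rfl
    · rw [am_self, xp, ← ha]; linarith
    · rw [am_self, xq, am_symm G i p, ← ha]; linarith
  have h1 := hX x hloc
  apply hv0
  have hm : ∀ i, i = p ∨ i = q → i ∈ Xᶜ := by
    intro i hi; rw [hT]; simp only [Finset.mem_insert, Finset.mem_singleton]; exact hi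
  ext i
  fin_cases i
  · exact xp.symm.trans (h1 p (hm p (Or.inl rfl)))
  · exact xq.symm.trans (h1 q (hm q (Or.inr rfl)))

theorem reach_closed {V : Type*} (G : SimpleGraph V) (S : Set V)
    (hS : ∀ a ∈ S, ∀ b, G.Adj a b → b ∈ S) {u v : V} (h : G.Reachable u v) (hu : u ∈ S) :
    v ∈ S := by
  obtain ⟨w⟩ := h
  induction w with
  | nil => exact hu
  | cons hadj _ ih => exact ih (hS _ hu _ hadj)

theorem no_iso {V : Type*} [Fintype V] (G : SimpleGraph V) (hG : G.Connected) (l : ℝ)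
    (X : Finset V) (hX : ∀ x : V → ℝ, LocEq G l Xᶜ x → ∀ i ∈ Xᶜ, x i = 0) (u v : V)
    (huv : u ≠ v) (hu : u ∈ X) (x : V → ℝ) (hx : IsDual G l X u x) :
    ∑ j ∈ Xᶜ, am G u j ≠ 0 := by
  intro h0
  have h1 : ∀ j ∈ Xᶜ, am G u j = 0 := by
    rw [← Finset.sum_eq_zero_iff_of_nonneg]
    · exact h0
    · intro j _
      rcases am_or G u j with h | h <;> rw [h]; exact zero_le_one
  have h2 : ∀ i ∈ Xᶜ, x i = 0 := by
    apply hX
    rw [locEq_am]
    intro i hi
    have := dual_eq G l X u hu x hx i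
    rw [am_symm, h1 i hi, zero_add] at this
    exact this
  have h3 : ∀ w, w ≠ u → am G w u = 0 := by
    intro w hw
    have e := dual_eq G l X u hu x hx w
    rw [Finset.sum_eq_zero (fun j hj => by rw [h2 j hj, mul_zero]), add_zero] at e
    by_cases hwX : w ∈ X
    · rw [hx.2.2 w hwX hw, mul_zero] at e; exact e
    · rw [h2 w (Finset.mem_compl.2 hwX), mul_zero] at e; exact e
  have h4 := reach_closed G {u} (by
    intro a ha b hab
    rw [Set.mem_singleton_iff] at ha
    subst ha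
    exact absurd hab.symm (am_zero (h3 b hab.ne'))) (hG.preconnected u v) rfl
  exact huv h4.symm

theorem exc {V : Type*} [Fintype V] (G : SimpleGraph V) (hG : G.Connected)
    (X : Finset V) (hd : ∀ u ∈ X, ∃ x, IsDual G 1 X u x)
    (hT : ∀ i ∈ Xᶜ, ∀ j ∈ Xᶜ, am G i j = 0) (u v : V) (huv : u ≠ v) (hu : u ∈ X)
    (hv : v ∈ X) : False := by
  have hnn : ∀ i j, 0 ≤ am G i j := fun i j => by
    rcases am_or G i j with h | h <;> rw [h]; exact zero_le_one
  have h1 : ∀ w ∈ X, ∀ w' : V, am G w' w + ∑ j ∈ Xᶜ, am G w' j * am G j w =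
      if w' = w then 1 else if w' ∈ X then 0 else am G w' w := by
    intro w hw w'
    obtain ⟨x, hx⟩ := hd w hw
    have hxj : ∀ j ∈ Xᶜ, x j = am G j w := by
      intro j hj
      have e := dual_eq G 1 X w hw x hx j
      rw [Finset.sum_eq_zero (fun i hi => by rw [hT j hj i hi, zero_mul])] at e
      linarith
    have e := dual_eq G 1 X w hw x hx w'
    rw [Finset.sum_congr rfl fun j hj => by rw [hxj j hj]] at e
    rw [e, one_mul]
    split_ifs with h2 h3
    · rw [h2]; exact hx.2.1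
    · exact hx.2.2 w' h3 h2
    · exact hxj w' (Finset.mem_compl.2 h3)
  have h2 : ∀ w ∈ X, ∀ w' ∈ X, w' ≠ w → am G w' w = 0 ∧ ∀ j ∈ Xᶜ, am G w' j * am G j w = 0 := by
    intro w hw w' hw' hne
    have e := h1 w hw w'
    rw [if_neg hne, if_pos hw'] at e
    have hs : 0 ≤ ∑ j ∈ Xᶜ, am G w' j * am G j w :=
      Finset.sum_nonneg fun j _ => mul_nonneg (hnn _ _) (hnn _ _)
    have hs0 : ∑ j ∈ Xᶜ, am G w' j * am G j w = 0 := by linarith [hnn w' w]
    refine ⟨by linarith, ?_⟩
    rwa [Finset.sum_eq_zero_iff_of_nonneg fun j _ => mul_nonneg (hnn _ _) (hnn _ _)] at hs0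
  have h3 : ∑ j ∈ Xᶜ, am G u j = 1 := by
    have e := h1 u hu u
    rw [if_pos rfl, am_self, zero_add] at e
    rw [← e]
    apply Finset.sum_congr rfl
    intro j _
    rw [am_symm G j u]
    rcases am_or G u j with h | h <;> rw [h] <;> norm_num
  obtain ⟨p, hp, hp1⟩ : ∃ p ∈ Xᶜ, am G u p = 1 := by
    by_contra hcon
    push Not at hcon
    rw [Finset.sum_eq_zero] at h3
    · exact zero_ne_one h3
    · intro j hj
      rcases am_or G u j with h | h
      · exact h
      · exact absurd h (hcon j hj)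
  have h4 : ∀ j ∈ Xᶜ, j ≠ p → am G u j = 0 := by
    intro j hj hjp
    rw [← Finset.add_sum_erase _ _ hp, hp1] at h3
    have h5 : ∑ j ∈ Xᶜ.erase p, am G u j = 0 := by linarith
    rw [Finset.sum_eq_zero_iff_of_nonneg fun j _ => hnn _ _] at h5
    exact h5 j (Finset.mem_erase.2 ⟨hjp, hj⟩)
  have h6 := reach_closed G {u, p} (by
    intro a ha b hab
    rw [Set.mem_insert_iff, Set.mem_singleton_iff] at ha
    rw [Set.mem_insert_iff, Set.mem_singleton_iff]
    rcases ha with rfl | rfl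
    · right
      by_contra hbp
      by_cases hb : b ∈ X
      · exact am_zero (h2 a hu b hb hab.ne').1 hab.symm
      · exact am_zero (h4 b (Finset.mem_compl.2 hb) hbp) hab
    · left
      by_contra hbu
      by_cases hb : b ∈ X
      · have h7 := (h2 u hu b hb hbu).2 a hp
        rw [am_symm G a u, hp1, mul_one] at h7
        exact am_zero h7 hab.symm
      · exact am_zero (hT a hp b (Finset.mem_compl.2 hb)) hab)
    (hG.preconnected u v) (Or.inl rfl)
  rcases h6 with h6 | h6
  · exact huv h6.symm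
  · rw [Set.mem_singleton_iff] at h6
    rw [h6] at hv
    exact (Finset.mem_compl.1 hp) hv

theorem upper {V : Type*} [Fintype V] (G : SimpleGraph V) (hG : G.Connected) (l : ℝ)
    (X : Finset V) (hst : IsStarSet G l X) (hc : (Xᶜ).card ≤ 3) : (mainSet G l X).card ≤ 1 := by
  by_contra hlt
  rw [not_le, Finset.one_lt_card] at hlt
  obtain ⟨u, hu, v, hv, huv⟩ := hlt
  have hX := (bot_iff G l Xᶜ).1 hst.2
  have hd := exists_dual G l X hst
  unfold mainSet at hu hv
  rw [Finset.mem_filter] at hu hv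
  obtain ⟨hu, hmu⟩ := hu
  obtain ⟨hv, hmv⟩ := hv
  obtain ⟨x, hx⟩ := hd u hu
  obtain ⟨z, hz⟩ := hd v hv
  have mx := main_sum G l X hX u hu x hx hmu
  have mz := main_sum G l X hX v hv z hz hmv
  have bx := no_iso G hG l X hX u v huv hu x hx
  have bz := no_iso G hG l X hX v u huv.symm hv z hz
  have ex := dual_eq G l X u hu x hx
  have ez := dual_eq G l X v hv z hz
  have g1 := ex u
  rw [am_self, zero_add, hx.2.1, mul_one] at g1
  have g2 := ez v
  rw [am_self, zero_add, hz.2.1, mul_one] at g2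
  have g3 := ex v
  rw [hx.2.2 v hv huv.symm, mul_zero] at g3
  have g4 := ez u
  rw [hz.2.2 u hu huv, mul_zero, am_symm] at g4
  have hcase : (Xᶜ).card = 0 ∨ (Xᶜ).card = 1 ∨ (Xᶜ).card = 2 ∨ (Xᶜ).card = 3 := by omega
  rcases hcase with h | h | h | h
  · rw [Finset.card_eq_zero] at h
    rw [h] at bx
    exact bx rfl
  · rw [Finset.card_eq_one] at h
    obtain ⟨p, hp⟩ := h
    have e1 := ex p
    have e2 := ez p
    rw [hp] at mx mz bx bz e1 e2 g1 g2 g3 g4
    simp only [Finset.sum_singleton, am_self, zero_mul, add_zero] at mx mz bx bz e1 e2 g1 g2 g3 g4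
    rw [am_symm G p u] at e1
    rw [am_symm G p v] at e2
    exact core1 l (x p) (z p) (am G u p) (am G v p) (am G v u) (am_or _ _ _) (am_or _ _ _)
      (am_or _ _ _) e1.symm e2.symm g1 g2 (by linarith) (by linarith) mx mz bx bz
  · rw [Finset.card_eq_two] at h
    obtain ⟨p, q, hpq, hp⟩ := h
    have D := det2 G l X hX p q hpq hp
    have hsum : ∀ f : V → ℝ, ∑ j ∈ Xᶜ, f j = f p + f q := by
      intro f
      rw [hp, Finset.sum_insert (by simp [hpq]), Finset.sum_singleton]
    have e1 := ex p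
    have e2 := ex q
    have f1 := ez p
    have f2 := ez q
    rw [hsum] at mx mz bx bz e1 e2 f1 f2 g1 g2 g3 g4
    rw [am_self, am_symm G p u] at e1
    rw [am_self, am_symm G q u, am_symm G q p] at e2
    rw [am_self, am_symm G p v] at f1
    rw [am_self, am_symm G q v, am_symm G q p] at f2
    rcases am_or G p q with h | h
    · rw [h] at e1 e2 f1 f2 D
      have hl := core2_0 l (x p) (x q) (z p) (z q) (am G u p) (am G u q) (am G v p) (am G v q)
        (am G v u) (am_or _ _ _) (am_or _ _ _) (am_or _ _ _) (am_or _ _ _) (am_or _ _ _)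
        (by linarith) (by linarith) (by linarith) (by linarith) g1 g2 (by linarith)
        (by linarith) mx mz bx bz (fun h' => D (by linarith))
      subst hl
      refine exc G hG X hd ?_ u v huv hu hv
      intro i hi j hj
      rw [hp] at hi hj
      simp only [Finset.mem_insert, Finset.mem_singleton] at hi hj
      rcases hi with rfl | rfl <;> rcases hj with rfl | rfl
      · exact am_self _ _
      · exact h
      · rw [am_symm]; exact h
      · exact am_self _ _
    · rw [h] at e1 e2 f1 f2 D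
      exact core2_1 l (x p) (x q) (z p) (z q) (am G u p) (am G u q) (am G v p) (am G v q)
        (am G v u) (am_or _ _ _) (am_or _ _ _) (am_or _ _ _) (am_or _ _ _) (am_or _ _ _)
        (by linarith) (by linarith) (by linarith) (by linarith) g1 g2 (by linarith)
        (by linarith) mx mz bx bz (fun h' => D (by linarith))
  · rw [Finset.card_eq_three] at h
    obtain ⟨p, q, r, hpq, hpr, hqr, hp⟩ := h
    have D := det3 G l X hX p q r hpq hpr hqr hp
    have hsum : ∀ f : V → ℝ, ∑ j ∈ Xᶜ, f j = f p + f q + f r := by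
      intro f
      rw [hp, Finset.sum_insert (by simp [hpq, hpr]), Finset.sum_insert (by simp [hqr]),
        Finset.sum_singleton, add_assoc]
    have e1 := ex p
    have e2 := ex q
    have e3 := ex r
    have f1 := ez p
    have f2 := ez q
    have f3 := ez r
    rw [hsum] at mx mz bx bz e1 e2 e3 f1 f2 f3 g1 g2 g3 g4
    rw [am_self, am_symm G p u] at e1
    rw [am_self, am_symm G q u, am_symm G q p] at e2
    rw [am_self, am_symm G r u, am_symm G r p, am_symm G r q] at e3
    rw [am_self, am_symm G p v] at f1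
    rw [am_self, am_symm G q v, am_symm G q p] at f2
    rw [am_self, am_symm G r v, am_symm G r p, am_symm G r q] at f3
    obtain ⟨hl, h12, h13, h23⟩ := core3 l (x p) (x q) (x r) (z p) (z q) (z r) (am G p q)
      (am G p r) (am G q r) (am G u p) (am G u q) (am G u r) (am G v p) (am G v q) (am G v r)
      (am G v u) (am_or _ _ _) (am_or _ _ _) (am_or _ _ _) (am_or _ _ _) (am_or _ _ _)
      (am_or _ _ _) (am_or _ _ _) (am_or _ _ _) (am_or _ _ _) (am_or _ _ _)
      (by linarith) (by linarith) (by linarith) (by linarith) (by linarith) (by linarith)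
      g1 g2 (by linarith) (by linarith) mx mz bx bz D
    subst hl
    refine exc G hG X hd ?_ u v huv hu hv
    intro i hi j hj
    rw [hp] at hi hj
    simp only [Finset.mem_insert, Finset.mem_singleton] at hi hj
    rcases hi with rfl | rfl | rfl <;> rcases hj with rfl | rfl | rfl
    · exact am_self _ _
    · exact h12
    · exact h13
    · rw [am_symm]; exact h12
    · exact am_self _ _
    · exact h23
    · rw [am_symm]; exact h13
    · rw [am_symm]; exact h23
    · exact am_self _ _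

/-! ### The examples -/

theorem mem_mainSet_of {V : Type*} [Fintype V] (G : SimpleGraph V) (l : ℝ) (X : Finset V) (u : V)
    (hu : u ∈ X) (x : V → ℝ) (hx : IsDual G l X u x) (hs : ∑ i ∈ Xᶜ ∪ {u}, x i ≠ 0) :
    u ∈ mainSet G l X := by
  unfold mainSet
  rw [Finset.mem_filter]
  refine ⟨hu, ?_⟩
  rw [isMain_iff]
  refine ⟨x, ?_, hs⟩
  intro i hi
  rw [← hx.1 i]
  apply Finset.sum_subset (Finset.subset_univ _)
  intro j _ hj
  have hjX : j ∈ X := by
    by_contra h
    exact hj (Finset.mem_union_left _ (Finset.mem_compl.2 h))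
  have hju : j ≠ u := fun h => hj (Finset.mem_union_right _ (Finset.mem_singleton.2 h))
  rw [hx.2.2 j hjX hju]; simp

/-- the complete graph -/
theorem complete_example (V : Type) [Fintype V] (v₀ : V) :
    ∃ (G : SimpleGraph V) (l : ℝ) (X : Finset V), G.Connected ∧ IsMain G l ∧
      IsStarSet G l X ∧ (mainSet G l X).card = 1 := by
  set N : ℝ := (Fintype.card V : ℝ) with hN
  have hNpos : 0 < N := by
    rw [hN]; exact_mod_cast Fintype.card_pos_iff.2 ⟨v₀⟩
  have hsum : ∀ (K : SimpleGraph V), K = ⊤ → ∀ (x : V → ℝ) (S : Finset V) (v : V), v ∈ S →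
      ∑ u ∈ S, (if K.Adj v u then x u else 0) = ∑ u ∈ S, x u - x v := by
    intro K hK x S v hv
    rw [← Finset.add_sum_erase S x hv, add_sub_cancel_left, ← Finset.add_sum_erase S _ hv]
    rw [if_neg (K.loopless.irrefl v), zero_add]
    apply Finset.sum_congr rfl
    intro u hu
    rw [if_pos]
    rw [hK, SimpleGraph.top_adj]
    exact (Finset.ne_of_mem_erase hu).symm
  have hone : (fun _ => 1 : V → ℝ) ∈ eigenspace (⊤ : SimpleGraph V) (N - 1) := by
    intro v
    refine (hsum ⊤ rfl (fun _ => 1) Finset.univ v (Finset.mem_univ _)).trans ?_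
    simp [hN]
  have hdual : IsDual (⊤ : SimpleGraph V) (N - 1) {v₀} v₀ (fun _ => 1) := by
    refine ⟨hone, rfl, ?_⟩
    intro w hw hw0
    exact absurd (Finset.mem_singleton.1 hw) hw0
  have hcard : (({v₀}ᶜ : Finset V).card : ℝ) = N - 1 := by
    rw [Finset.card_compl, Finset.card_singleton, Nat.cast_sub]
    · simp [hN]
    · exact Fintype.card_pos_iff.2 ⟨v₀⟩
  have hX : ∀ x : V → ℝ, LocEq (⊤ : SimpleGraph V) (N - 1) {v₀}ᶜ x →
      ∀ i ∈ ({v₀}ᶜ : Finset V), x i = 0 := by
    intro x hx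
    have h1 : ∀ i ∈ ({v₀}ᶜ : Finset V), ∑ u ∈ {v₀}ᶜ, x u = N * x i := by
      intro i hi
      have h2 := (hsum ⊤ rfl x _ i hi).symm.trans (hx i hi)
      linarith
    have h2 : (N - 1) * ∑ u ∈ ({v₀}ᶜ : Finset V), x u =
        N * ∑ u ∈ ({v₀}ᶜ : Finset V), x u := by
      have h3 := Finset.sum_congr (rfl : ({v₀}ᶜ : Finset V) = {v₀}ᶜ) h1
      rw [Finset.sum_const, nsmul_eq_mul, hcard, ← Finset.mul_sum] at h3
      exact h3
    intro i hi
    have h3 := h1 i hi
    have h4 : ∑ u ∈ ({v₀}ᶜ : Finset V), x u = 0 := by linarith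
    rw [h4] at h3
    exact (mul_eq_zero.1 h3.symm).resolve_left hNpos.ne'
  refine ⟨⊤, N - 1, {v₀}, ?_, ⟨fun _ => 1, hone, ?_⟩,
    isStarSet_of _ _ _ hX ?_, ?_⟩
  · have : Nonempty V := ⟨v₀⟩
    exact SimpleGraph.connected_top
  · simp only [Finset.sum_const, nsmul_eq_mul, mul_one, Finset.card_univ]
    exact hNpos.ne'
  · intro u hu
    rw [Finset.mem_singleton] at hu
    subst hu
    exact ⟨_, hdual⟩
  · have h0 : v₀ ∈ mainSet (⊤ : SimpleGraph V) (N - 1) {v₀} := by
      apply mem_mainSet_of _ _ _ _ (Finset.mem_singleton_self _) _ hdual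
      rw [Finset.sum_const, nsmul_eq_mul, mul_one, Nat.cast_ne_zero]
      apply Finset.card_ne_zero_of_mem (a := v₀)
      exact Finset.mem_union_right _ (Finset.mem_singleton_self _)
    apply le_antisymm
    · refine (Finset.card_le_card (Finset.filter_subset _ _)).trans ?_
      simp
    · exact Finset.card_pos.2 ⟨v₀, h0⟩

/-- the path `a b w c d` with further copies of its middle vertex `w` -/
def pathG {V : Type} (a b c d : V) (hab : a ≠ b) (hac : a ≠ c) (had : a ≠ d) (hbc : b ≠ c)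
    (hbd : b ≠ d) (hcd : c ≠ d) : SimpleGraph V where
  Adj i j := (i = a ∧ j = b) ∨ (i = b ∧ j = a) ∨ (i = c ∧ j = d) ∨ (i = d ∧ j = c) ∨
    ((i ≠ a ∧ i ≠ b ∧ i ≠ c ∧ i ≠ d) ∧ (j = b ∨ j = c)) ∨
    ((j ≠ a ∧ j ≠ b ∧ j ≠ c ∧ j ≠ d) ∧ (i = b ∨ i = c))
  symm := ⟨by
    rintro i j (h | h | h | h | h | h)
    · right; left; exact ⟨h.2, h.1⟩
    · left; exact ⟨h.2, h.1⟩
    · right; right; right; left; exact ⟨h.2, h.1⟩
    · right; right; left; exact ⟨h.2, h.1⟩
    · right; right; right; right; right; exact h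
    · right; right; right; right; left; exact h⟩
  loopless := ⟨by
    rintro i (h | h | h | h | h | h)
    · exact hab (h.1.symm.trans h.2)
    · exact hab (h.2.symm.trans h.1)
    · exact hcd (h.1.symm.trans h.2)
    · exact hcd (h.2.symm.trans h.1)
    · rcases h.2 with h' | h'
      · exact h.1.2.1 h'
      · exact h.1.2.2.1 h'
    · rcases h.2 with h' | h'
      · exact h.1.2.1 h'
      · exact h.1.2.2.1 h'⟩

theorem path_example (V : Type) [Fintype V] (a b c d w₀ : V) (hab : a ≠ b) (hac : a ≠ c)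
    (had : a ≠ d) (hbc : b ≠ c) (hbd : b ≠ d) (hcd : c ≠ d)
    (hw₀ : w₀ ≠ a ∧ w₀ ≠ b ∧ w₀ ≠ c ∧ w₀ ≠ d) :
    ∃ (G : SimpleGraph V) (l : ℝ) (X : Finset V), G.Connected ∧ IsMain G l ∧
      IsStarSet G l X ∧ (mainSet G l X).card = Fintype.card V - 4 := by
  set G := pathG a b c d hab hac had hbc hbd hcd with hGdef
  have hadj : ∀ i j, G.Adj i j ↔ ((i = a ∧ j = b) ∨ (i = b ∧ j = a) ∨ (i = c ∧ j = d) ∨
    (i = d ∧ j = c) ∨ ((i ≠ a ∧ i ≠ b ∧ i ≠ c ∧ i ≠ d) ∧ (j = b ∨ j = c)) ∨
    ((j ≠ a ∧ j ≠ b ∧ j ≠ c ∧ j ≠ d) ∧ (i = b ∨ i = c))) := fun i j => Iff.rfl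
  have adj_w : ∀ w, (w ≠ a ∧ w ≠ b ∧ w ≠ c ∧ w ≠ d) → ∀ v, G.Adj v w ↔ (v = b ∨ v = c) := by
    intro w hw v
    rw [hadj]
    constructor
    · rintro (h | h | h | h | h | h)
      · exact absurd h.2 hw.2.1
      · exact absurd h.2 hw.1
      · exact absurd h.2 hw.2.2.2
      · exact absurd h.2 hw.2.2.1
      · rcases h.2 with h' | h'
        · exact absurd h' hw.2.1
        · exact absurd h' hw.2.2.1
      · exact h.2
    · intro h; right; right; right; right; right; exact ⟨hw, h⟩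
  have adj_a : ∀ v, G.Adj v a ↔ v = b := by
    intro v
    rw [hadj]
    constructor
    · rintro (h | h | h | h | h | h)
      · exact absurd h.2 hab
      · exact h.1
      · exact absurd h.2 had
      · exact absurd h.2 hac
      · rcases h.2 with h' | h'
        · exact absurd h' hab
        · exact absurd h' hac
      · exact absurd rfl h.1.1
    · intro h; right; left; exact ⟨h, rfl⟩
  have adj_d : ∀ v, G.Adj v d ↔ v = c := by
    intro v
    rw [hadj]
    constructor
    · rintro (h | h | h | h | h | h)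
      · exact absurd h.2 hbd.symm
      · exact absurd h.2 had.symm
      · exact h.1
      · exact absurd h.2 hcd.symm
      · rcases h.2 with h' | h'
        · exact absurd h' hbd.symm
        · exact absurd h' hcd.symm
      · exact absurd rfl h.1.2.2.2
    · intro h; right; right; left; exact ⟨h, rfl⟩
  have adj_b : ∀ v, v = a ∨ (v ≠ a ∧ v ≠ b ∧ v ≠ c ∧ v ≠ d) ↔ G.Adj v b := by
    intro v
    rw [hadj]
    constructor
    · rintro (h | h)
      · left; exact ⟨h, rfl⟩
      · right; right; right; right; left; exact ⟨h, Or.inl rfl⟩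
    · rintro (h | h | h | h | h | h)
      · left; exact h.1
      · exact absurd h.2 hab.symm
      · exact absurd h.2 hbd
      · exact absurd h.2 hbc
      · right; exact h.1
      · exact absurd rfl h.1.2.1
  have adj_c : ∀ v, v = d ∨ (v ≠ a ∧ v ≠ b ∧ v ≠ c ∧ v ≠ d) ↔ G.Adj v c := by
    intro v
    rw [hadj]
    constructor
    · rintro (h | h)
      · right; right; right; left; exact ⟨h, rfl⟩
      · right; right; right; right; left; exact ⟨h, Or.inr rfl⟩
    · rintro (h | h | h | h | h | h)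
      · exact absurd h.2 hbc.symm
      · exact absurd h.2 hac.symm
      · exact absurd h.2 hcd
      · left; exact h.1
      · right; exact h.1
      · exact absurd rfl h.1.2.2.1
  set S : Finset V := {a, b, c, d} with hS
  have memS : ∀ v, v ∈ S ↔ (v = a ∨ v = b ∨ v = c ∨ v = d) := by
    intro v; rw [hS]; simp only [Finset.mem_insert, Finset.mem_singleton]
  have nmemS : ∀ v, v ∉ S ↔ (v ≠ a ∧ v ≠ b ∧ v ≠ c ∧ v ≠ d) := by
    intro v; rw [memS]; tauto
  have sumS : ∀ f : V → ℝ, ∑ j ∈ S, f j = f a + (f b + (f c + f d)) := by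
    intro f
    rw [hS, Finset.sum_insert (by simp [hab, hac, had]), Finset.sum_insert (by simp [hbc, hbd]),
      Finset.sum_insert (by simp [hcd]), Finset.sum_singleton]
  let y : V → V → ℝ := fun w => Pi.single w 1 - Pi.single a 1 - Pi.single d 1
  have hdual : ∀ w ∈ Sᶜ, IsDual G 0 Sᶜ w (y w) := by
    intro w hw
    rw [Finset.mem_compl, nmemS] at hw
    refine ⟨?_, ?_, ?_⟩
    · intro v
      rw [zero_mul]
      simp only [ite_am]
      have e1 : ∀ p : V, ∑ u, am G v u * (Pi.single p (1:ℝ) : V → ℝ) u = am G v p := by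
        intro p
        rw [Finset.sum_eq_single p]
        · rw [Pi.single_eq_same, mul_one]
        · intro u _ hu; rw [Pi.single_eq_of_ne hu, mul_zero]
        · intro h; exact absurd (Finset.mem_univ _) h
      have e2 : ∑ u, am G v u * y w u = am G v w - am G v a - am G v d := by
        rw [← e1 w, ← e1 a, ← e1 d, ← Finset.sum_sub_distrib, ← Finset.sum_sub_distrib]
        apply Finset.sum_congr rfl; intro u _
        show _ * ((Pi.single w (1:ℝ) : V → ℝ) u - (Pi.single a (1:ℝ) : V → ℝ) u -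
          (Pi.single d (1:ℝ) : V → ℝ) u) = _
        ring
      rw [e2]
      unfold am
      by_cases hvb : v = b
      · rw [if_pos ((adj_w w hw v).2 (Or.inl hvb)), if_pos ((adj_a v).2 hvb),
          if_neg (fun h => hbc (hvb.symm.trans ((adj_d v).1 h)))]
        norm_num
      · by_cases hvc : v = c
        · rw [if_pos ((adj_w w hw v).2 (Or.inr hvc)), if_neg (fun h => hvb ((adj_a v).1 h)),
            if_pos ((adj_d v).2 hvc)]
          norm_num
        · rw [if_neg (fun h => ((adj_w w hw v).1 h).elim hvb hvc),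
            if_neg (fun h => hvb ((adj_a v).1 h)), if_neg (fun h => hvc ((adj_d v).1 h))]
          norm_num
    · show (Pi.single w (1:ℝ) : V → ℝ) w - (Pi.single a (1:ℝ) : V → ℝ) w -
        (Pi.single d (1:ℝ) : V → ℝ) w = 1
      rw [Pi.single_eq_same, Pi.single_eq_of_ne hw.1, Pi.single_eq_of_ne hw.2.2.2]
      norm_num
    · intro v hv hvw
      rw [Finset.mem_compl, nmemS] at hv
      show (Pi.single w (1:ℝ) : V → ℝ) v - (Pi.single a (1:ℝ) : V → ℝ) v -
        (Pi.single d (1:ℝ) : V → ℝ) v = 0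
      rw [Pi.single_eq_of_ne hvw, Pi.single_eq_of_ne hv.1, Pi.single_eq_of_ne hv.2.2.2]
      norm_num
  have hsumy : ∀ (w : V) (T : Finset V), w ∈ T → a ∈ T → d ∈ T → ∑ i ∈ T, y w i = -1 := by
    intro w T hw ha hd
    have e1 : ∀ p ∈ T, ∑ u ∈ T, (Pi.single p (1:ℝ) : V → ℝ) u = 1 := by
      intro p hp
      rw [Finset.sum_eq_single p]
      · rw [Pi.single_eq_same]
      · intro u _ hu; rw [Pi.single_eq_of_ne hu]
      · intro h; exact absurd hp h
    calc ∑ i ∈ T, y w i = ∑ i ∈ T, ((Pi.single w (1:ℝ) : V → ℝ) i -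
          (Pi.single a (1:ℝ) : V → ℝ) i - (Pi.single d (1:ℝ) : V → ℝ) i) := rfl
      _ = -1 := by
        rw [Finset.sum_sub_distrib, Finset.sum_sub_distrib, e1 w hw, e1 a ha, e1 d hd]; norm_num
  have haS : a ∈ S := (memS a).2 (Or.inl rfl)
  have hdS : d ∈ S := (memS d).2 (Or.inr (Or.inr (Or.inr rfl)))
  have hw₀X : w₀ ∈ Sᶜ := Finset.mem_compl.2 ((nmemS w₀).2 hw₀)
  refine ⟨G, 0, Sᶜ, ?_, ⟨y w₀, (hdual w₀ hw₀X).1, ?_⟩, isStarSet_of G 0 Sᶜ ?_
    (fun u hu => ⟨_, hdual u hu⟩), ?_⟩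
  · rw [SimpleGraph.connected_iff_exists_forall_reachable]
    refine ⟨b, fun v => ?_⟩
    have rb : ∀ v, (v ≠ a ∧ v ≠ b ∧ v ≠ c ∧ v ≠ d) → G.Reachable b v := fun v hv =>
      (SimpleGraph.Adj.reachable ((adj_b v).1 (Or.inr hv))).symm
    have rc : G.Reachable b c :=
      (rb w₀ hw₀).trans (SimpleGraph.Adj.reachable ((adj_c w₀).1 (Or.inr hw₀)))
    by_cases h1 : v = a
    · rw [h1]; exact (SimpleGraph.Adj.reachable ((adj_b a).1 (Or.inl rfl))).symm
    · by_cases h2 : v = b
      · rw [h2]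
      · by_cases h3 : v = c
        · rw [h3]; exact rc
        · by_cases h4 : v = d
          · rw [h4]
            exact rc.trans (SimpleGraph.Adj.reachable ((adj_c d).1 (Or.inl rfl))).symm
          · exact rb v ⟨h1, h2, h3, h4⟩
  · rw [hsumy w₀ Finset.univ (Finset.mem_univ _) (Finset.mem_univ _) (Finset.mem_univ _)]
    norm_num
  · rw [compl_compl]
    intro x hx i hi
    rw [locEq_am] at hx
    have ea := hx a haS
    have eb := hx b ((memS b).2 (Or.inr (Or.inl rfl)))
    have ec := hx c ((memS c).2 (Or.inr (Or.inr (Or.inl rfl))))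
    have ed := hx d hdS
    rw [sumS] at ea eb ec ed
    have am1 : ∀ i j, G.Adj i j → am G i j = 1 := fun i j h => if_pos h
    have am0 : ∀ i j, ¬ G.Adj i j → am G i j = 0 := fun i j h => if_neg h
    have a1 : am G a b = 1 := am1 _ _ ((adj_b a).1 (Or.inl rfl))
    have a2 : am G a c = 0 := am0 _ _ fun h => by
      rcases (adj_c a).2 h with h' | h'
      · exact had h'
      · exact h'.1 rfl
    have a3 : am G a d = 0 := am0 _ _ fun h => hac ((adj_d a).1 h)
    have a4 : am G b c = 0 := am0 _ _ fun h => by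
      rcases (adj_c b).2 h with h' | h'
      · exact hbd h'
      · exact h'.2.1 rfl
    have a5 : am G b d = 0 := am0 _ _ fun h => hbc ((adj_d b).1 h)
    have a6 : am G c d = 1 := am1 _ _ ((adj_d c).2 rfl)
    rw [am_self, a1, a2, a3] at ea
    rw [am_self, am_symm G b a, a1, a4, a5] at eb
    rw [am_self, am_symm G c a, am_symm G c b, a2, a4, a6] at ec
    rw [am_self, am_symm G d a, am_symm G d b, am_symm G d c, a3, a5, a6] at ed
    rcases (memS i).1 hi with rfl | rfl | rfl | rfl <;> linarith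
  · have hall : mainSet G 0 Sᶜ = Sᶜ := by
      apply Finset.Subset.antisymm (Finset.filter_subset _ _)
      intro w hw
      apply mem_mainSet_of G 0 Sᶜ w hw _ (hdual w hw)
      rw [hsumy w]
      · norm_num
      · exact Finset.mem_union_right _ (Finset.mem_singleton_self _)
      · exact Finset.mem_union_left _ (by rw [compl_compl]; exact haS)
      · exact Finset.mem_union_left _ (by rw [compl_compl]; exact hdS)
    rw [hall, Finset.card_compl]
    congr 1
    rw [hS, Finset.card_insert_of_notMem (by simp [hab, hac, had]),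
      Finset.card_insert_of_notMem (by simp [hbc, hbd]),
      Finset.card_insert_of_notMem (by simp [hcd]), Finset.card_singleton]

/-- **Theorem.** For every `n ≥ 1` the largest number of `l`-main vertices of an `l`-star set of a
connected graph with `n` vertices, where `l` is a main eigenvalue of the graph, is
`max 1 (n - 4)`. -/
theorem result (n : ℕ) (hn : 1 ≤ n) :
    IsGreatest {m : ℕ | ∃ (V : Type) (_ : Fintype V) (G : SimpleGraph V) (l : ℝ) (X : Finset V),
      Fintype.card V = n ∧ G.Connected ∧ IsMain G l ∧ IsStarSet G l X ∧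
      m = (mainSet G l X).card} (max 1 (n - 4)) := by
  constructor
  · rcases le_or_gt n 4 with h4 | h4
    · obtain ⟨G, l, X, h1, h2, h3, h5⟩ := complete_example (Fin n) ⟨0, hn⟩
      refine ⟨Fin n, inferInstance, G, l, X, Fintype.card_fin n, h1, h2, h3, ?_⟩
      rw [h5]; omega
    · obtain ⟨G, l, X, h1, h2, h3, h5⟩ := path_example (Fin n) ⟨0, by omega⟩ ⟨1, by omega⟩
        ⟨2, by omega⟩ ⟨3, by omega⟩ ⟨4, h4⟩ (by simp [Fin.ext_iff]) (by simp [Fin.ext_iff])
        (by simp [Fin.ext_iff]) (by simp [Fin.ext_iff]) (by simp [Fin.ext_iff])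
        (by simp [Fin.ext_iff]) (by simp [Fin.ext_iff])
      refine ⟨Fin n, inferInstance, G, l, X, Fintype.card_fin n, h1, h2, h3, ?_⟩
      rw [h5, Fintype.card_fin]; omega
  · rintro m ⟨V, _, G, l, X, hV, h1, h2, h3, rfl⟩
    rcases le_or_gt (Xᶜ).card 3 with hc | hc
    · exact (upper G h1 l X h3 hc).trans (le_max_left _ _)
    · refine le_trans ?_ (le_max_right _ _)
      have h4 : (mainSet G l X).card ≤ X.card := Finset.card_le_card (Finset.filter_subset _ _)
      have h5 := Finset.card_compl_add_card X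
      omega

end Pool.Agent.Results.MP_bb681f_co.StarMain
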